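import Pool.Agent.Y245.UC.Stm
import Pool.Agent.Y448.SC.Res

/-! # UC-START: the Volterra equation in the annulus -/

set_option autoImplicit false

open Complex MeasureTheory Metric Set Filter Topology ComplexConjugate
open Pool.Agent.Y245.SC Pool.Agent.Y245.UC
open Pool.Agent.Y448.SC (kz kz_diff par_ker exp_mem exp_mem' fc_diff strip_open strip_convex)

namespace Pool.Agent.Y987.UC

theorem rf_diff {φ : ℂ → ℂ} {ℓ : ℝ} (hφ : DifferentiableOn ℂ φ (ball 0 (Real.exp ℓ)))
    {v : ℂ} (h : Real.exp (-ℓ) < ‖v‖) : DifferentiableAt ℂ (Rf φ) v := by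
  have hv0 : (0 : ℝ) < ‖v‖ := lt_trans (Real.exp_pos _) h
  have hv : v ≠ 0 := norm_pos_iff.1 hv0
  have hcv : conj v ≠ 0 := (map_ne_zero _).2 hv
  have h1 : DifferentiableAt ℂ (fun z => φ (1 / z)) (conj v) := by
    have h2 : 1 / conj v ∈ ball (0 : ℂ) (Real.exp ℓ) := by
      rw [mem_ball_zero_iff, norm_div, norm_one, RCLike.norm_conj, one_div]
      have h3 : Real.exp ℓ = (Real.exp (-ℓ))⁻¹ := by rw [Real.exp_neg, inv_inv]
      rw [h3]
      exact inv_strictAnti₀ (Real.exp_pos _) h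
    have h3 : DifferentiableAt ℂ φ (1 / conj v) :=
      hφ.differentiableAt (isOpen_ball.mem_nhds h2)
    have h4 : DifferentiableAt ℂ (fun z : ℂ => 1 / z) (conj v) :=
      (differentiableAt_const _).div differentiableAt_id hcv
    exact DifferentiableAt.comp (conj v) h3 h4
  have h4 := h1.conj_conj
  rw [Complex.conj_conj] at h4
  exact h4

theorem rf_exp (φ : ℂ → ℂ) (ω : ℂ) : Rf φ (exp ω) = Fc φ ω := by
  unfold Rf Fc
  rw [← Complex.exp_conj, Complex.exp_neg, one_div]

theorem seg_self (g : ℂ → ℂ) (p : ℂ) : seg g p p = 0 := by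
  unfold seg
  simp

theorem ustart : U_START := by
  intro hK hS hP φ G a ℓ b u ha hℓ hφ hG hV hu1 hu2
  have hk : Differentiable ℂ (kap a) := (hK a ha.le).1
  have hu0 : (0 : ℝ) < ‖u‖ := lt_trans (Real.exp_pos _) hu1
  have hu : u ≠ 0 := norm_pos_iff.1 hu0
  set p : ℂ := log u with hp
  have hep : exp p = u := Complex.exp_log hu
  have hpr : p.re = Real.log ‖u‖ := Complex.log_re u
  have hp1 : -ℓ < p.re := by
    rw [hpr]
    exact (Real.lt_log_iff_exp_lt hu0).2 hu1
  have hp2 : p.re < 0 := by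
    rw [hpr]
    exact Real.log_neg hu0 hu2
  have hpS : p ∈ Strip ℓ := ⟨hp1, by linarith⟩
  have h0S : (0 : ℂ) ∈ Strip ℓ := by
    constructor
    · rw [zero_re]; linarith
    · rw [zero_re]; exact hℓ
  -- points on the segment
  have htre : ∀ t : ℝ, t ∈ Icc (0 : ℝ) 1 → ((t : ℂ) * p).re < ℓ ∧ -ℓ < ((t : ℂ) * p).re := by
    intro t ht
    have e : ((t : ℂ) * p).re = t * p.re := by simp
    rw [e]
    constructor
    · have := mul_nonneg ht.1 (neg_nonneg.2 hp2.le)
      linarith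
    · have := mul_le_mul_of_nonneg_right ht.2 (neg_nonneg.2 hp2.le)
      linarith
  have hsub1 : ball (0 : ℂ) 1 ⊆ ball (0 : ℂ) (Real.exp ℓ) :=
    ball_subset_ball (Real.one_le_exp hℓ.le)
  -- the inhomogeneous term
  have hH : DifferentiableOn ℂ (fun s => ∫ t in (0 : ℝ)..1,
      kz a φ ((t : ℂ) * p) (φ s) (Fc φ ((t : ℂ) * p) - b) * p) (ball 0 1) := by
    refine par_ker hP hk hφ isOpen_ball (fun _ t => (t : ℂ) * p)
      (fun _ t => Fc φ ((t : ℂ) * p) - b) (fun _ _ => p) φ ?_ ?_ ?_ ?_ ?_ ?_ ?_ ?_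
    · intro s _ t ht
      exact (htre t ht).1
    · intro s hs
      exact hφ.differentiableAt (isOpen_ball.mem_nhds (hsub1 hs))
    · intro s _ t _
      fun_prop
    · intro s _ t ht
      have h1 : ContinuousAt (Fc φ) ((t : ℂ) * p) := (fc_diff hφ (htre t ht).2).continuousAt
      have h2 : ContinuousAt (fun x : ℂ × ℝ => (x.2 : ℂ) * p) (s, t) := by fun_prop
      have h3 : ContinuousAt (fun x : ℂ × ℝ => Fc φ ((x.2 : ℂ) * p)) (s, t) :=
        ContinuousAt.comp (f := fun x : ℂ × ℝ => (x.2 : ℂ) * p) (x := (s, t)) (g := Fc φ) h1 h2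
      exact h3.sub continuousAt_const
    · intro s _ t _
      fun_prop
    · intro s _ t _
      fun_prop
    · intro s _ t _
      fun_prop
    · intro s _ t _
      fun_prop
  refine ⟨fun s => G s + ∫ t in (0 : ℝ)..1,
      kz a φ ((t : ℂ) * p) (φ s) (Fc φ ((t : ℂ) * p) - b) * p, hG.add hH, ?_⟩
  -- a ball around `u` in the annulus
  have hA : IsOpen {v : ℂ | Real.exp (-ℓ) < ‖v‖ ∧ ‖v‖ < 1} :=
    (isOpen_lt continuous_const continuous_norm).inter (isOpen_lt continuous_norm continuous_const)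
  obtain ⟨r, hr, hrA⟩ := Metric.isOpen_iff.1 hA u ⟨hu1, hu2⟩
  -- a ball around `p`
  have hcexp : ∀ᶠ ω in 𝓝 p, exp ω ∈ ball u r := by
    have h1 : Tendsto exp (𝓝 p) (𝓝 u) := by
      have := Complex.continuous_exp.tendsto p
      rwa [hep] at this
    exact h1 (ball_mem_nhds u hr)
  have hcS : ∀ᶠ ω in 𝓝 p, ω ∈ Strip ℓ := (strip_open ℓ).mem_nhds hpS
  obtain ⟨δ, hδ, hball⟩ := Metric.eventually_nhds_iff_ball.1 (hcexp.and hcS)
  -- the local logarithm
  have hL : Tendsto (fun v : ℂ => p + log (v / u)) (𝓝 u) (𝓝 p) := by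
    have h1 : ContinuousAt (fun v : ℂ => p + log (v / u)) u := by
      have h2 : ContinuousAt (fun v : ℂ => log (v / u)) u := by
        apply ContinuousAt.clog
        · exact continuousAt_id.div_const u
        · rw [div_self hu]
          exact Complex.one_mem_slitPlane
      exact continuousAt_const.add h2
    have h3 := h1.tendsto
    simp only [div_self hu, Complex.log_one, add_zero] at h3
    exact h3
  have hLB : ∀ᶠ v in 𝓝 u, p + log (v / u) ∈ ball p δ := hL (ball_mem_nhds p hδ)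
  filter_upwards [hLB, isOpen_ball.mem_nhds (mem_ball_self (x := u) hr),
    isOpen_ne.mem_nhds hu] with u0 hu0B hu0r hu0ne
  set ω0 : ℂ := p + log (u0 / u) with hω0
  have heω0 : exp ω0 = u0 := by
    rw [hω0, Complex.exp_add, hep, Complex.exp_log (div_ne_zero hu0ne hu)]
    field_simp
  have hω0S : ω0 ∈ Strip ℓ := (hball ω0 hu0B).2
  have hω0n : ω0.re < 0 := by
    have h1 := (hrA hu0r).2
    rw [← heω0, Complex.norm_exp] at h1
    exact Real.exp_lt_one_iff.1 h1
  have hVo := hV ω0 hω0S.1 hω0n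
  set g : ℂ → ℂ := fun ω => ker a φ ω ω0 (Fc φ ω - b) with hg
  set gU : ℂ → ℂ := fun v => kerU a φ v u0 (Rf φ v - b) with hgU
  have hgd : DifferentiableOn ℂ g (Strip ℓ) := by
    intro ω hω
    have h1 : DifferentiableAt ℂ (fun p : ℂ × ℂ × ℂ => kz a φ p.1 p.2.1 p.2.2)
        (ω, φ (exp ω0), Fc φ ω - b) :=
      kz_diff hk hφ (p := (ω, φ (exp ω0), Fc φ ω - b)) hω.2
    have h2 : DifferentiableAt ℂ (fun ω => (ω, φ (exp ω0), Fc φ ω - b)) ω :=
      differentiableAt_id.prodMk ((differentiableAt_const _).prodMk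
        ((fc_diff hφ hω.1).sub_const b))
    exact (DifferentiableAt.comp (f := fun ω => (ω, φ (exp ω0), Fc φ ω - b)) ω h1
      h2).differentiableWithinAt
  have hgUd : DifferentiableOn ℂ gU (ball u r) := by
    intro v hv
    have hvA := hrA hv
    have hvR : v ∈ ball (0 : ℂ) (Real.exp ℓ) := hsub1 (mem_ball_zero_iff.2 hvA.2)
    have hR : DifferentiableAt ℂ (fun v => Rf φ v - b) v := (rf_diff hφ hvA.1).sub_const b
    have hφv : DifferentiableAt ℂ φ v := hφ.differentiableAt (isOpen_ball.mem_nhds hvR)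
    have hdφ : DifferentiableAt ℂ (deriv φ) v :=
      (hφ.deriv isOpen_ball).differentiableAt (isOpen_ball.mem_nhds hvR)
    have h3 : DifferentiableAt ℂ (fun v => kap a ((Rf φ v - b) * (φ v - φ u0))) v :=
      DifferentiableAt.comp v (hk _) (hR.mul (hφv.sub_const _))
    exact (((hR.pow 2).mul h3).mul hdφ).differentiableWithinAt
  obtain ⟨hadd, hder⟩ := hS (Strip ℓ) g (strip_open ℓ) (strip_convex ℓ) hgd
  obtain ⟨-, hderU⟩ := hS (ball u r) gU isOpen_ball (convex_ball u r) hgUd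
  have hpB : p ∈ ball p δ := mem_ball_self hδ
  have hgg : ∀ ω, g ω = gU (exp ω) * exp ω := by
    intro ω
    simp only [hg, hgU]
    rw [rf_exp]
    unfold Pool.Agent.Y245.SC.ker kerU
    rw [heω0]
    ring
  -- change of variables
  have hD : ∀ ω ∈ ball p δ, HasDerivAt (fun x => seg g p x - seg gU u (exp x)) 0 ω := by
    intro ω hω
    have h1 := hder p hpS ω (hball ω hω).2
    have h2 := hderU u (mem_ball_self hr) (exp ω) (hball ω hω).1
    have h3 : HasDerivAt (fun x => seg gU u (exp x)) (gU (exp ω) * exp ω) ω :=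
      HasDerivAt.comp ω h2 (Complex.hasDerivAt_exp ω)
    have h4 := h1.sub h3
    rw [hgg, sub_self] at h4
    exact h4
  have hconst : seg g p ω0 - seg gU u (exp ω0) = seg g p p - seg gU u (exp p) := by
    refine IsOpen.is_const_of_deriv_eq_zero (f := fun x => seg g p x - seg gU u (exp x))
      isOpen_ball (convex_ball p δ).isPreconnected
      (fun ω hω => (hD ω hω).differentiableAt.differentiableWithinAt)
      (fun ω hω => (hD ω hω).deriv) hu0B hpB
  rw [hep, seg_self, seg_self, sub_self, sub_eq_zero, heω0] at hconst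
  have hsum := hadd 0 h0S p hpS ω0 hω0S
  have hFR : Rf φ u0 = Fc φ ω0 := by rw [← rf_exp, heω0]
  rw [hFR, hVo, ← hsum, hconst, heω0]
  have hlast : seg g 0 p = ∫ t in (0 : ℝ)..1,
      kz a φ ((t : ℂ) * p) (φ u0) (Fc φ ((t : ℂ) * p) - b) * p := by
    unfold seg
    refine intervalIntegral.integral_congr (fun t _ => ?_)
    simp only [hg, sub_zero, zero_add]
    rw [Pool.Agent.Y448.SC.ker_eq, heω0]
  rw [hlast]
  ring

end Pool.Agent.Y987.UC
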